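import Pool.Agent.TH783.IS.Main
import Pool.Agent.TH686.FO.Main

set_option autoImplicit false

/-!
Vaught's conjecture, perfect-set form, for first-order theories of graphs without a given induced
subgraph `H`: it holds if `H` is an induced subgraph of the path on four vertices; otherwise it is
equivalent to the full conjecture, even for the complete theories of such graphs.
-/

namespace Pool.Agent.Results.MP_5df2c5_lc.ForbiddenInducedSubgraph

open FirstOrder

/-- Vaught's conjecture, perfect-set form, for the theory `T` in the language `L` (the body of the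
frozen statement): the models with universe `ℕ` fall into countably many isomorphism classes, or
some continuous family of models, indexed by the Cantor space, consists of pairwise
non-isomorphic models. -/
def Dichotomy (L : FirstOrder.Language.{0, 0}) (T : L.Theory) : Prop :=
  (∃ g : ℕ → L.Structure ℕ, ∀ S : L.Structure ℕ,
      @FirstOrder.Language.Theory.Model L ℕ S T →
        ∃ n : ℕ, Nonempty (@FirstOrder.Language.Equiv L ℕ ℕ S (g n))) ∨
  (∃ f : (ℕ → Bool) → L.Structure ℕ,
      (∀ x : ℕ → Bool, @FirstOrder.Language.Theory.Model L ℕ (f x) T) ∧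
      (∀ x y : ℕ → Bool,
          Nonempty (@FirstOrder.Language.Equiv L ℕ ℕ (f x) (f y)) → x = y) ∧
      (∀ (n : ℕ) (R : L.Relations n) (a : Fin n → ℕ),
          IsClopen {x : ℕ → Bool | @FirstOrder.Language.Structure.RelMap L ℕ (f x) n R a}) ∧
      (∀ (n : ℕ) (F : L.Functions n) (a : Fin n → ℕ) (b : ℕ),
          IsOpen {x : ℕ → Bool | @FirstOrder.Language.Structure.funMap L ℕ (f x) n F a = b}))

/-- Vaught's conjecture for all first-order theories in all countable languages (the frozen
statement). -/
def FullConjecture : Prop :=
  ∀ L : FirstOrder.Language.{0, 0}, Countable L.Symbols → ∀ T : L.Theory, Dichotomy L T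

/-- The interpretation of the symbol of the language of graphs, which has one symbol, a binary
relation symbol. -/
def Adj (S : FirstOrder.Language.graph.Structure ℕ) (u v : ℕ) : Prop :=
  @FirstOrder.Language.Structure.RelMap FirstOrder.Language.graph ℕ S 2
    FirstOrder.Language.graphRel.adj ![u, v]

/-- The relation is a graph on `ℕ` without induced subgraph isomorphic to `H`. -/
structure InducedFree {V : Type} (H : SimpleGraph V) (r : ℕ → ℕ → Prop) : Prop where
  irrefl : ∀ u, ¬ r u u
  symm : ∀ u v, r u v → r v u
  free : ¬ Nonempty (H ↪g SimpleGraph.fromRel r)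

open Pool.Agent.TH686.FO Pool.Agent.W889.VC Pool.Agent.W889.FO

private theorem free_iff {V : Type} {H : SimpleGraph V}
    {S : FirstOrder.Language.graph.Structure ℕ} :
    InducedFree H (Adj S) ↔ Pool.Agent.TH783.IS.IFree H (bs S) := by
  have key : (∀ u, ¬ Adj S u u) → (∀ u v, Adj S u v → Adj S v u) → ∀ u v,
      (SimpleGraph.fromRel (Adj S)).Adj u v ↔ bs S u v = true := by
    intro h1 h2 u v
    rw [SimpleGraph.fromRel_adj, bs_iff]
    constructor
    · rintro ⟨-, h | h⟩
      · exact h
      · exact h2 _ _ h
    · intro h
      refine ⟨fun e => ?_, Or.inl h⟩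
      subst e
      exact h1 _ h
  constructor
  · intro h
    refine ⟨fun u => ?_, fun u v huv => ?_, ?_⟩
    · rw [Bool.eq_false_iff, ne_eq, bs_iff]
      exact h.irrefl u
    · rw [bs_iff] at huv ⊢
      exact h.symm _ _ huv
    · rintro ⟨f, hf, hf'⟩
      exact h.free ⟨⟨⟨f, hf⟩, fun {u v} => (key h.irrefl h.symm _ _).trans (hf' u v)⟩⟩
  · intro h
    have h1 : ∀ u, ¬ Adj S u u := fun u hu => by
      have h3 := h.irrefl u
      rw [Bool.eq_false_iff, ne_eq, bs_iff] at h3
      exact h3 hu
    have h2 : ∀ u v, Adj S u v → Adj S v u := fun u v huv =>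
      (bs_iff S v u).1 (h.symm u v ((bs_iff S u v).2 huv))
    refine ⟨h1, h2, ?_⟩
    rintro ⟨f⟩
    exact h.free ⟨f, f.injective, fun u v => (key h1 h2 _ _).symm.trans f.map_adj_iff⟩

/-- completeness of the graphs without induced subgraph `H` -/
private theorem comp_free {V : Type} {H : SimpleGraph V}
    (h : ¬ Nonempty (H ↪g SimpleGraph.pathGraph 4)) :
    Comp (fun S => InducedFree H (Adj S)) := by
  by_cases h1 : Pool.Agent.TH783.IS.Tr H
  · intro hV T
    refine red_bip (fun T' hT' => hV T' fun S hS => free_iff.2 ?_) T
    exact Pool.Agent.TH783.IS.tr_free h1 _ (hT' S hS)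
  by_cases h2 : Pool.Agent.TH783.IS.Co H
  · intro hV T
    refine red_cobip (fun T' hT' => hV T' fun S hS => free_iff.2 ?_) T
    exact Pool.Agent.TH783.IS.co_free h2 _ (hT' S hS)
  by_cases h3 : Pool.Agent.TH783.IS.Sp H
  · exact absurd (Pool.Agent.TH783.IS.emb h1 h2 h3) h
  · intro hV T
    refine red_split (fun T' hT' => hV T' fun S hS => free_iff.2 ?_) T
    exact Pool.Agent.TH783.IS.sp_free h3 _ (hT' S hS)

/-- **Theorem.** Let `H` be a graph. (1) If `H` is an induced subgraph of the path on four vertices,
then Vaught's conjecture, perfect-set form, holds for every first-order theory all of whose models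
on `ℕ` are graphs without induced subgraph `H`. (2) Otherwise the full conjecture (all theories in
all countable languages) is equivalent to its restriction to the complete theories all of whose
models on `ℕ` are graphs without induced subgraph `H`. -/
theorem result {V : Type} (H : SimpleGraph V) :
    (Nonempty (H ↪g SimpleGraph.pathGraph 4) → ∀ T : FirstOrder.Language.graph.Theory,
      (∀ S : FirstOrder.Language.graph.Structure ℕ,
        @FirstOrder.Language.Theory.Model FirstOrder.Language.graph ℕ S T →
          InducedFree H (Adj S)) → Dichotomy FirstOrder.Language.graph T) ∧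
    (¬ Nonempty (H ↪g SimpleGraph.pathGraph 4) →
      (FullConjecture ↔ ∀ T : FirstOrder.Language.graph.Theory, T.IsComplete →
        (∀ S : FirstOrder.Language.graph.Structure ℕ,
          @FirstOrder.Language.Theory.Model FirstOrder.Language.graph ℕ S T →
            InducedFree H (Adj S)) → Dichotomy FirstOrder.Language.graph T)) := by
  refine ⟨fun h T hT => ?_, fun h => ⟨fun hF T _ _ => hF _ countable_LGs T, fun hV L hL T => ?_⟩⟩
  · refine (vaughtF_iff _ T).2 ?_
    exact pos_fo (Pool.Agent.TH783.IS.pos h) T fun S hS => free_iff.1 (hT S hS)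
  · exact (comp_free h).full hV L hL T

end Pool.Agent.Results.MP_5df2c5_lc.ForbiddenInducedSubgraph
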