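import Pool.Agent.R617.VT.Ord

set_option autoImplicit false

/-!
Vaught's conjecture, perfect-set form, for first-order theories of partial orders without a given
suborder `Q`: it holds if `Q` is a suborder of N; if `Q` is not one of the exceptions (disjoint
unions of an antichain and a suborder of N, with at most one comparable pair or at most five
elements), then it is equivalent to the full conjecture, even for complete theories. For connected
`Q` this is a complete classification. The full conjecture is also equivalent to the conjecture for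
the complete theories of pairs of linear orders.
-/

namespace Pool.Agent.Results.MP_5df2c5_lc.ForbiddenSuborder

open FirstOrder
open Pool.Agent.TH686.FO (L2 R2)

/-- Vaught's conjecture, perfect-set form, for the theory `T` in the language `L` (the body of the
frozen statement): the models with universe `ℕ` fall into countably many isomorphism classes, or
some continuous family of models, indexed by the Cantor space, consists of pairwise
non-isomorphic models. -/
def Dichotomy (L : FirstOrder.Language.{0, 0}) (T : L.Theory) : Prop :=
  (∃ g : ℕ → L.Structure ℕ, ∀ S : L.Structure ℕ,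
      @FirstOrder.Language.Theory.Model L ℕ S T →
        ∃ n : ℕ, Nonempty (@FirstOrder.Language.Equiv L ℕ ℕ S (g n))) ∨
  (∃ f : (ℕ → Bool) → L.Structure ℕ,
      (∀ x : ℕ → Bool, @FirstOrder.Language.Theory.Model L ℕ (f x) T) ∧
      (∀ x y : ℕ → Bool,
          Nonempty (@FirstOrder.Language.Equiv L ℕ ℕ (f x) (f y)) → x = y) ∧
      (∀ (n : ℕ) (R : L.Relations n) (a : Fin n → ℕ),
          IsClopen {x : ℕ → Bool | @FirstOrder.Language.Structure.RelMap L ℕ (f x) n R a}) ∧
      (∀ (n : ℕ) (F : L.Functions n) (a : Fin n → ℕ) (b : ℕ),
          IsOpen {x : ℕ → Bool | @FirstOrder.Language.Structure.funMap L ℕ (f x) n F a = b}))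

/-- Vaught's conjecture for all first-order theories in all countable languages (the frozen
statement). -/
def FullConjecture : Prop :=
  ∀ L : FirstOrder.Language.{0, 0}, Countable L.Symbols → ∀ T : L.Theory, Dichotomy L T

/-- The interpretation of the binary relation symbol `R`. -/
def Rel {L : FirstOrder.Language.{0, 0}} (S : L.Structure ℕ) (R : L.Relations 2) (u v : ℕ) : Prop :=
  @FirstOrder.Language.Structure.RelMap L ℕ S 2 R ![u, v]

/-- Strict partial orders. -/
structure IsOrder {V : Type} (r : V → V → Prop) : Prop where
  irrefl : ∀ u, ¬ r u u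
  trans : ∀ u v w, r u v → r v w → r u w

/-- `r` is a strict partial order on `ℕ` without a suborder isomorphic to `Q`. -/
structure OrderFree {V : Type} (Q : V → V → Prop) (r : ℕ → ℕ → Prop) : Prop where
  order : IsOrder r
  free : ¬ ∃ f : V → ℕ, Function.Injective f ∧ ∀ u v, r (f u) (f v) ↔ Q u v

/-- The order N on four elements: `0 < 1`, `2 < 1`, `2 < 3`. -/
def N (i j : Fin 4) : Prop := (i = 0 ∧ j = 1) ∨ (i = 2 ∧ j = 1) ∨ (i = 2 ∧ j = 3)

/-- `Q` is isomorphic to a suborder of N. -/
def InN {V : Type} (Q : V → V → Prop) : Prop :=
  ∃ f : V → Fin 4, Function.Injective f ∧ ∀ u v, Q u v ↔ N (f u) (f v)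

/-- `Q` is the disjoint union of a suborder `S` of N and an antichain; and there is at most one
pair `a < b` in `Q`, or `Q` has at most five elements. -/
def Exceptional {V : Type} (Q : V → V → Prop) : Prop :=
  (∃ S : Set V, (∀ u v, Q u v → u ∈ S ∧ v ∈ S) ∧
    ∃ f : V → Fin 4, Set.InjOn f S ∧ ∀ u ∈ S, ∀ v ∈ S, Q u v ↔ N (f u) (f v)) ∧
  ((∀ a b c d, Q a b → Q c d → a = c ∧ b = d) ∨ ∃ g : V → Fin 5, Function.Injective g)

/-- The comparability graph of `Q` is connected. -/
def Connected {V : Type} (Q : V → V → Prop) : Prop :=
  ∀ u v, Relation.ReflTransGen (fun x y => Q x y ∨ Q y x) u v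

/-- Vaught's conjecture for the theories `T` in the language `L` all of whose models on `ℕ` are
in `K`. -/
def ForTheories (L : FirstOrder.Language.{0, 0}) (K : L.Structure ℕ → Prop) : Prop :=
  ∀ T : L.Theory, (∀ S : L.Structure ℕ, @FirstOrder.Language.Theory.Model L ℕ S T → K S) →
    Dichotomy L T

/-- Vaught's conjecture for the complete theories `T` in the language `L` all of whose models on
`ℕ` are in `K`. -/
def ForCompleteTheories (L : FirstOrder.Language.{0, 0}) (K : L.Structure ℕ → Prop) : Prop :=
  ∀ T : L.Theory, T.IsComplete →
    (∀ S : L.Structure ℕ, @FirstOrder.Language.Theory.Model L ℕ S T → K S) → Dichotomy L T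

/-- The structures for a language with one binary relation symbol (the language of graphs of
Mathlib) which are partial orders without suborder `Q`. -/
def Free {V : Type} (Q : V → V → Prop) (S : FirstOrder.Language.graph.Structure ℕ) : Prop :=
  OrderFree Q (Rel S FirstOrder.Language.graphRel.adj)

/-- Strict linear orders. -/
structure IsLinear (r : ℕ → ℕ → Prop) : Prop extends IsOrder r where
  total : ∀ u v, u ≠ v → r u v ∨ r v u

open Pool.Agent.TH686.FO Pool.Agent.W889.VC Pool.Agent.W889.FO

private theorem free_iff {V : Type} {Q : V → V → Prop}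
    {S : FirstOrder.Language.graph.Structure ℕ} :
    Free Q S ↔ Pool.Agent.R617.VT.QF Q (StE.gd S) :=
  ⟨fun h => ⟨⟨h.order.irrefl, h.order.trans⟩, h.free⟩,
    fun h => ⟨⟨h.1.irrefl, h.1.trans⟩, h.2⟩⟩

private theorem rel_bs (S : FirstOrder.Language.graph.Structure ℕ) :
    Pool.Agent.W889.SD.rel (bs S) = StE.gd S := by
  funext u v
  exact propext (bs_iff S u v)

private theorem pos {V : Type} {Q : V → V → Prop} (h : InN Q) :
    ForTheories FirstOrder.Language.graph (Free Q) := by
  intro T hT
  refine (vaughtF_iff _ T).2 ?_
  refine pos_fo (Pool.Agent.R617.VT.vc_qf h) T fun S hS => ?_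
  rw [rel_bs]
  exact free_iff.1 (hT S hS)

private theorem neg {V : Type} {Q : V → V → Prop} (hQ : IsOrder Q) (h : ¬ Exceptional Q)
    (hV : ForCompleteTheories FirstOrder.Language.graph (Free Q)) : FullConjecture := by
  intro L hL T
  exact (Pool.Agent.R617.VT.comp_qf (Q := Q) ⟨hQ.irrefl, hQ.trans⟩ h).full
    (fun T hc hT => hV T hc fun S hS => free_iff.2 (hT S hS)) L hL T

/-- **Theorem.** Let `Q` be a partial order. (1) If `Q` is a suborder of N, then Vaught's
conjecture, perfect-set form, holds for all first-order theories of partial orders without suborder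
`Q`. (2) If `Q` is not exceptional, then the conjecture for the complete theories of partial orders
without suborder `Q` is equivalent to the full conjecture. (3) If `Q` is connected, then the
conjecture for the complete theories of partial orders without suborder `Q` is equivalent to: `Q` is
a suborder of N, or the full conjecture holds. (4) The full conjecture is equivalent to the
conjecture for the complete theories of pairs of linear orders. -/
theorem result :
    (∀ (V : Type) (Q : V → V → Prop), IsOrder Q →
      (InN Q → ForTheories FirstOrder.Language.graph (Free Q)) ∧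
      (¬ Exceptional Q →
        (FullConjecture ↔ ForCompleteTheories FirstOrder.Language.graph (Free Q))) ∧
      (Connected Q → (ForCompleteTheories FirstOrder.Language.graph (Free Q) ↔
        InN Q ∨ FullConjecture))) ∧
    (FullConjecture ↔ ForCompleteTheories L2
      fun S => IsLinear (Rel S R2.fst) ∧ IsLinear (Rel S R2.snd)) := by
  refine ⟨fun V Q hQ => ?_, ⟨fun h T _ _ => h L2 countable_L2s T, fun hV L hL T => ?_⟩⟩
  · have p1 : InN Q → ForTheories FirstOrder.Language.graph (Free Q) := pos
    have p2 : ¬ Exceptional Q →
        (FullConjecture ↔ ForCompleteTheories FirstOrder.Language.graph (Free Q)) := fun h =>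
      ⟨fun hF T _ _ => hF _ countable_LGs T, neg hQ h⟩
    refine ⟨p1, p2, fun hc => ⟨fun h => ?_, ?_⟩⟩
    · by_cases hE : Exceptional Q
      · exact Or.inl (Pool.Agent.TH686.FS.emb_of_conn hE.1 hc)
      · exact Or.inr ((p2 hE).2 h)
    · rintro (h | h)
      · exact fun T _ hT => p1 h T hT
      · exact fun T _ _ => h _ countable_LGs T
  · refine full_pl (fun T hc hT => hV T hc fun S hS => ?_) L hL T
    obtain ⟨h1, h2⟩ := hT S hS
    exact ⟨⟨⟨h1.irrefl, h1.trans⟩, h1.total⟩, ⟨⟨h2.irrefl, h2.trans⟩, h2.total⟩⟩

end Pool.Agent.Results.MP_5df2c5_lc.ForbiddenSuborder
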