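import Pool.Agent.H129.VT.Pos

set_option autoImplicit false

/-!
# Vaught's conjecture for tournaments without given subtournaments

Vaught's conjecture, perfect-set form, for the theories of tournaments without subtournaments in a
family `T`. It is true if some member of `T` has at most four vertices, also for Borel classes and
with unary predicates. It is equivalent to the full conjecture if no member of `T` is split, where
a tournament is split if its vertices can be partitioned into two sets on which it is transitive
such that the arcs from the second set to the first one form a matching. If `T` is the family of all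
tournaments which are not split, this is about the theories of split tournaments.

Outline. A prime tournament with infinitely many vertices is locally transitive if it does not
contain one of the four tournaments with four vertices: if no vertex dominates the three vertices of
a cycle, then the strong components of the in-neighbourhoods are modules; if there are no cycles of
length four, then the cyclic triangles are modules. So the first part follows from the starting
result `MP_5df2c5_lc.PermutationAndIntervalGraphs` on modular decompositions with locally transitive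
prime quotients. For the second part the arcs between the partners in a dense linear order with an
involution (starting result `MP_5df2c5_lc.DecomposableAutomorphisms`) are reversed. These arcs are
the only ones which are not in a transitive triangle as the arc from the first to the last vertex,
so that the order and the involution can be recovered by first-order formulas.
-/

namespace Pool.Agent.Results.MP_5df2c5_lc.ForbiddenSubtournament

open FirstOrder

/-- Vaught's conjecture, perfect-set form, for the theory `Th` in the language `L` (the body of the
frozen statement): the models with universe `ℕ` fall into countably many isomorphism classes, or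
some continuous family of models, indexed by the Cantor space, consists of pairwise
non-isomorphic models. -/
def Dichotomy (L : FirstOrder.Language.{0, 0}) (Th : L.Theory) : Prop :=
  (∃ g : ℕ → L.Structure ℕ, ∀ S : L.Structure ℕ,
      @FirstOrder.Language.Theory.Model L ℕ S Th →
        ∃ n : ℕ, Nonempty (@FirstOrder.Language.Equiv L ℕ ℕ S (g n))) ∨
  (∃ f : (ℕ → Bool) → L.Structure ℕ,
      (∀ x : ℕ → Bool, @FirstOrder.Language.Theory.Model L ℕ (f x) Th) ∧
      (∀ x y : ℕ → Bool,
          Nonempty (@FirstOrder.Language.Equiv L ℕ ℕ (f x) (f y)) → x = y) ∧
      (∀ (n : ℕ) (R : L.Relations n) (a : Fin n → ℕ),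
          IsClopen {x : ℕ → Bool | @FirstOrder.Language.Structure.RelMap L ℕ (f x) n R a}) ∧
      (∀ (n : ℕ) (F : L.Functions n) (a : Fin n → ℕ) (b : ℕ),
          IsOpen {x : ℕ → Bool | @FirstOrder.Language.Structure.funMap L ℕ (f x) n F a = b}))

/-- Vaught's conjecture for all first-order theories in all countable languages (the frozen
statement). -/
def FullConjecture : Prop :=
  ∀ L : FirstOrder.Language.{0, 0}, Countable L.Symbols → ∀ Th : L.Theory, Dichotomy L Th

/-- Tournaments: for every two different vertices exactly one of the two arcs is present. -/
structure Tournament {V : Type} (E : V → V → Prop) : Prop where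
  irrefl : ∀ a, ¬ E a a
  total : ∀ a b, a ≠ b → E a b ∨ E b a
  asymm : ∀ a b, E a b → ¬ E b a

/-- `E` is a tournament which does not contain a copy of any of the `T i`. -/
def Free {ι : Type} {V : ι → Type} (T : ∀ i, V i → V i → Prop) (E : ℕ → ℕ → Prop) : Prop :=
  Tournament E ∧ ∀ i, ¬ ∃ f : V i → ℕ, Function.Injective f ∧ ∀ u v, E (f u) (f v) ↔ T i u v

/-- The vertices can be partitioned into two sets (the vertices with and without the property `I`)
on both of which `T` is transitive, such that the arcs from the second set to the first one have
different starting points and different end points. -/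
def Split {V : Type} (T : V → V → Prop) : Prop :=
  ∃ I : V → Prop, (∀ u v w, (I u ↔ I v) → (I v ↔ I w) → T u v → T v w → T u w) ∧
    (∀ u v w, I u → ¬ I v → ¬ I w → T v u → T w u → v = w) ∧
    ∀ u v w, I u → I v → ¬ I w → T w u → T w v → u = v

/-- The interpretation of the binary relation symbol of the language of graphs. -/
def arc (S : FirstOrder.Language.graph.Structure ℕ) (u v : ℕ) : Prop :=
  @FirstOrder.Language.Structure.RelMap FirstOrder.Language.graph ℕ S 2
    FirstOrder.Language.adj ![u, v]

/-- Structures on `ℕ`: a binary relation `x.1` and unary predicates `x.2 0, x.2 1, ...`. -/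
abbrev Structures : Type := (ℕ → ℕ → Bool) × (ℕ → ℕ → Bool)

/-- `σ` is an isomorphism from `x` to `y`. -/
def IsIso (σ : Equiv.Perm ℕ) (x y : Structures) : Prop :=
  (∀ m n, y.1 (σ m) (σ n) = x.1 m n) ∧ ∀ i m, y.2 i (σ m) = x.2 i m

open Pool.Agent.H129.VT

private theorem tour_iff {E : ℕ → ℕ → Bool} :
    Tour E ↔ Tournament (fun u v => E u v = true) := by
  constructor
  · intro h
    exact ⟨fun a k => h.ne k rfl, h.tot, fun a b k1 k2 => h.asy a b k1 k2⟩
  · intro h
    refine ⟨fun a => ?_, h.total, fun a b k1 k2 => h.asymm a b k1 k2⟩
    rw [← Bool.not_eq_true]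
    exact h.irrefl a

private theorem ft_of {V : Type} {T : V → V → Prop} (hT : Tournament T) {n : ℕ} (e : V ≃ Fin n)
    [DecidableRel T] : FT (fun i j => decide (T (e.symm i) (e.symm j))) := by
  refine ⟨fun i => decide_eq_false (hT.irrefl _), fun i j hij => ?_⟩
  have hne : e.symm i ≠ e.symm j := fun k => hij (e.symm.injective k)
  rw [Bool.eq_iff_iff]
  simp only [decide_eq_true_eq, Bool.not_eq_true', decide_eq_false_iff_not]
  exact ⟨fun k => hT.asymm _ _ k, fun k => (hT.total _ _ hne).resolve_left k⟩

private theorem has_iff {V : Type} {T : V → V → Prop} {n : ℕ} (e : V ≃ Fin n)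
    [DecidableRel T] {E : ℕ → ℕ → Bool}
    (hE : ¬ ∃ f : V → ℕ, Function.Injective f ∧ ∀ u v, E (f u) (f v) = true ↔ T u v) :
    ¬ Has (fun i j => decide (T (e.symm i) (e.symm j))) E := by
  rintro ⟨f, hf, hf'⟩
  refine hE ⟨fun v => f (e v), fun u v huv => e.injective (hf huv), fun u v => ?_⟩
  rw [hf']
  simp

/-- **Vaught's conjecture for tournaments without given subtournaments.** Let `T i` be tournaments
(finitely or infinitely many, finite or infinite). A tournament is `T`-free if it contains none of
the `T i`.

(1) If some `T i` has at most four vertices then every isomorphism-invariant Borel class of `T`-free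
tournaments on `ℕ` with unary predicates contains countably many isomorphism types, or there is a
continuous map from the Cantor space into it with pairwise non-isomorphic values; and Vaught's
conjecture holds for the first-order theories of `T`-free tournaments.

(2) If no `T i` is split then Vaught's conjecture for the complete first-order theories of `T`-free
tournaments is equivalent to the full conjecture. -/
theorem result {ι : Type} {V : ι → Type} (T : ∀ i, V i → V i → Prop)
    (hT : ∀ i, Tournament (T i)) :
    ((∃ i, Finite (V i) ∧ Nat.card (V i) ≤ 4) →
      (∀ B : Set Structures, MeasurableSet B → (∀ x ∈ B, Free T fun u v => x.1 u v = true) →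
        (∀ x ∈ B, ∀ (y : Structures) (σ : Equiv.Perm ℕ), IsIso σ x y → y ∈ B) →
        (∃ f : ℕ → Structures, ∀ x ∈ B, ∃ (n : ℕ) (σ : Equiv.Perm ℕ), IsIso σ (f n) x) ∨
        (∃ c : (ℕ → Bool) → Structures, Continuous c ∧ (∀ s, c s ∈ B) ∧
          ∀ s t, (∃ σ : Equiv.Perm ℕ, IsIso σ (c s) (c t)) → s = t)) ∧
      ∀ Th : FirstOrder.Language.graph.Theory, (∀ S : FirstOrder.Language.graph.Structure ℕ,
        @FirstOrder.Language.Theory.Model FirstOrder.Language.graph ℕ S Th → Free T (arc S)) →
          Dichotomy FirstOrder.Language.graph Th) ∧
    ((∀ i, ¬ Split (T i)) → (FullConjecture ↔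
      ∀ Th : FirstOrder.Language.graph.Theory, Th.IsComplete →
        (∀ S : FirstOrder.Language.graph.Structure ℕ,
          @FirstOrder.Language.Theory.Model FirstOrder.Language.graph ℕ S Th → Free T (arc S)) →
            Dichotomy FirstOrder.Language.graph Th)) := by
  classical
  refine ⟨?_, fun hs => ⟨fun h Th _ _ => h _ ?_ Th, fun h L hL Th => ?_⟩⟩
  · rintro ⟨i, hfin, hn⟩
    obtain ⟨n, ⟨e⟩⟩ := Finite.exists_equiv_fin (V i)
    have hn4 : n ≤ 4 := by
      rw [Nat.card_congr e, Nat.card_eq_fintype_card, Fintype.card_fin] at hn
      exact hn
    have hF := ft_of (hT i) e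
    have key := fun (B : Set Structures) (hB : MeasurableSet B)
      (hE : ∀ x ∈ B, Free T fun u v => x.1 u v = true) =>
        borel_four hn4 hF B hB fun x hx => ⟨tour_iff.2 (hE x hx).1, has_iff e ((hE x hx).2 i)⟩
    refine ⟨key, fun Th hTh => ?_⟩
    refine (Pool.Agent.W889.FO.vaughtF_iff FirstOrder.Language.graph Th).2 ?_
    refine theory_of_borel (fun E => Free T fun u v => E u v = true) key Th fun S hS => ?_
    have h1 : (fun u v => Pool.Agent.TH686.FO.bs S u v = true) = arc S :=
      Pool.Agent.TH686.FO.bs_fun S
    show Free T (fun u v => Pool.Agent.TH686.FO.bs S u v = true)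
    rw [h1]
    exact hTh S hS
  · have h1 : Countable (Σ n, FirstOrder.Language.graph.Relations n) := by
      refine Function.Surjective.countable (f := fun _ : Unit =>
        (⟨2, FirstOrder.Language.graphRel.adj⟩ : Σ n, FirstOrder.Language.graphRel n)) ?_
      rintro ⟨n, Q⟩
      cases Q
      exact ⟨(), rfl⟩
    have h2 : IsEmpty (Σ n, FirstOrder.Language.graph.Functions n) :=
      ⟨fun f => isEmptyElim f.2⟩
    show Countable ((Σ n, FirstOrder.Language.graph.Functions n) ⊕
      Σ n, FirstOrder.Language.graph.Relations n)
    infer_instance
  · refine full_T (fun T1 hc hW => h T1 hc fun S hS => ?_) L hL Th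
    obtain ⟨h1, h2⟩ := hW S hS
    obtain ⟨k1, k2, k3⟩ := h1.tour
    refine ⟨⟨fun a k => k1 a ((h2 a a).1 k), fun a b hab => ?_, fun a b k k' => ?_⟩, ?_⟩
    · exact (k2 a b hab).imp (h2 a b).2 (h2 b a).2
    · exact k3 a b ((h2 a b).1 k) ((h2 b a).1 k')
    · rintro i ⟨f, hf, hf'⟩
      exact hs i (h1.matched (T i) f hf fun u v => (h2 (f u) (f v)).symm.trans (hf' u v))

end Pool.Agent.Results.MP_5df2c5_lc.ForbiddenSubtournament
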