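import Pool.Agent.Helper27.CF.Comp

set_option autoImplicit false

/-!
Vaught's conjecture, in perfect-set form for Borel classes of countable structures, holds for the
structures whose automorphism groups contain no nonabelian free group, more generally for the
structures such that all pointwise limits of automorphisms are automorphisms, and for the structures
which are built from these by connected components, prime quotients and countable unions.
-/

namespace Pool.Agent.Results.MP_5df2c5_lc.NoFreeSubgroups

/-- Relational structures on `ℕ` with relations of arities `a 0, a 1, ...`. -/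
abbrev Str (a : ℕ → ℕ) : Type := (i : ℕ) → (Fin (a i) → ℕ) → Bool

/-- Isomorphism of structures. -/
def Iso {a : ℕ → ℕ} (x y : Str a) : Prop :=
  ∃ σ : Equiv.Perm ℕ, ∀ (i : ℕ) (v : Fin (a i) → ℕ), y i (⇑σ ∘ v) = x i v

/-- The class `V` satisfies Vaught's conjecture, in perfect-set form: every isomorphism-invariant
Borel subclass `B` of `V` has countably many isomorphism types, or there is a continuous family of
pairwise non-isomorphic members of `B` indexed by the Cantor space. -/
def Vaught {a : ℕ → ℕ} (V : Str a → Prop) : Prop :=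
  ∀ B : Set (Str a), MeasurableSet B → (∀ x y, Iso x y → (x ∈ B ↔ y ∈ B)) → (∀ x ∈ B, V x) →
    (∃ f : ℕ → Str a, ∀ x ∈ B, ∃ n, Iso (f n) x) ∨
    (∃ g : (ℕ → Bool) → Str a, Continuous g ∧ (∀ c, g c ∈ B) ∧ ∀ c d, Iso (g c) (g d) → c = d)

/-- `σ` is an automorphism of `x`. -/
def IsAut {a : ℕ → ℕ} (x : Str a) (σ : Equiv.Perm ℕ) : Prop :=
  ∀ (i : ℕ) (v : Fin (a i) → ℕ), x i (⇑σ ∘ v) = x i v

/-- The automorphism group of `x` contains no free group of rank two. -/
def NoFreeSubgroup {a : ℕ → ℕ} (x : Str a) : Prop :=
  ¬ ∃ φ : FreeGroup (Fin 2) →* Equiv.Perm ℕ, Function.Injective φ ∧ ∀ w, IsAut x (φ w)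

/-- Every map from `ℕ` to `ℕ` which is a pointwise limit of automorphisms of `x` is onto (and hence
an automorphism). -/
def LimitsOnto {a : ℕ → ℕ} (x : Str a) : Prop :=
  ∀ f : ℕ → ℕ, (∀ n, ∃ σ, IsAut x σ ∧ ∀ i < n, σ i = f i) → Function.Surjective f

/-- Two points occur together in a tuple of a relation. -/
def Linked {a : ℕ → ℕ} (x : Str a) (u v : ℕ) : Prop :=
  ∃ (i : ℕ) (t : Fin (a i) → ℕ), x i t = true ∧ (∃ j, t j = u) ∧ ∃ j, t j = v

/-- All infinite connected components of `x` are in `V` (`e` is any enumeration of the component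
of `u`). -/
def ComponentsIn {a : ℕ → ℕ} (V : Str a → Prop) (x : Str a) : Prop :=
  ∀ (u : ℕ) (e : ℕ → ℕ), Function.Injective e →
    (∀ z, Relation.ReflTransGen (Linked x) u z ↔ ∃ n, e n = z) → V fun i v => x i (e ∘ v)

/-- `X` is a module of `x`: the value of a relation at a tuple with an entry outside `X` does not
change if an entry in `X` is replaced by another point of `X`. -/
def IsModule {a : ℕ → ℕ} (x : Str a) (X : Set ℕ) : Prop :=
  ∀ (i : ℕ) (t : Fin (a i) → ℕ) (k l : Fin (a i)) (b : ℕ),
    t k ∈ X → b ∈ X → t l ∉ X → x i (Function.update t k b) = x i t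

/-- All modules with at least two points are the whole structure. -/
def IsPrime {a : ℕ → ℕ} (x : Str a) : Prop :=
  ∀ Y : Set ℕ, IsModule x Y → Y.Subsingleton ∨ Y = Set.univ

open Classical in
/-- The quotient structure with representatives `e 0, e 1, ...`; constant tuples are removed from
all relations. -/
noncomputable def quotient {a : ℕ → ℕ} (x : Str a) (e : ℕ → ℕ) : Str a :=
  fun i v => if ∃ j l, v j ≠ v l then x i (e ∘ v) else false

/-- Every infinite prime quotient of `x` is in `V`: if a module of `x` is the union of disjoint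
modules `X 0, X 1, ...` and the quotient is prime, then the quotient is in `V`. -/
def PrimeQuotientsIn {a : ℕ → ℕ} (V : Str a → Prop) (x : Str a) : Prop :=
  ∀ (X : ℕ → Set ℕ) (e : ℕ → ℕ), (∀ n, e n ∈ X n) → (∀ n, IsModule x (X n)) →
    (∀ m n, m ≠ n → Disjoint (X m) (X n)) → IsModule x (⋃ n, X n) →
    IsPrime (quotient x e) → V (quotient x e)

/-- The classes of structures obtained from the structures whose automorphism group contains no
free group of rank two or is closed under pointwise limits, by conditions on the infinite connected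
components, conditions on the infinite prime quotients, and countable unions. -/
inductive Small (a : ℕ → ℕ) : (Str a → Prop) → Prop
  | base : Small a fun x => NoFreeSubgroup x ∨ LimitsOnto x
  | components (V : Str a → Prop) : Small a V → Small a (ComponentsIn V)
  | quotients (V : Str a → Prop) : Small a V → Small a (PrimeQuotientsIn V)
  | unions (V : ℕ → Str a → Prop) : (∀ n, Small a (V n)) → Small a fun x => ∃ n, V n x

open Pool.Agent.Helper27.CF in
theorem base_eq {a : ℕ → ℕ} : (fun x : Str a => NoFreeSubgroup x ∨ LimitsOnto x) = Cli := by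
  funext x
  refine propext ⟨?_, fun h => Or.inr fun f hf => h f fun n => ?_⟩
  · rintro (h | h)
    · exact NoFree.complete (G := Aut x) h (closed_aut x)
    · intro f hf
      refine h f fun n => ?_
      obtain ⟨σ, h1, h2⟩ := hf n
      exact ⟨σ, h1, h2⟩
  · obtain ⟨σ, h1, h2⟩ := hf n
    exact ⟨σ, h1, h2⟩

/-- Vaught's conjecture (perfect-set form, Borel classes) holds for all classes in `Small`. -/
theorem result : ∀ a : ℕ → ℕ, (∀ i, 0 < a i) → ∀ V : Str a → Prop, Small a V → Vaught V := by
  intro a ha V hV
  have key : Pool.Agent.H533R2.VS.VCu V ∧ Pool.Agent.H533R2.VS.Coan V ∧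
      Pool.Agent.H533R2.VS.Inv V := by
    induction hV with
    | base =>
      rw [base_eq]
      exact ⟨Pool.Agent.Helper27.CF.vcu_cli a, Pool.Agent.Helper27.CF.coan_cli a,
        Pool.Agent.Helper27.CF.inv_cli a⟩
    | components V _ ih =>
      exact ⟨Pool.Agent.Helper27.CF.comp_vcu ha ih.1,
        (Pool.Agent.Helper27.CF.comp_coan ih.2.1 ih.2.2).1,
        (Pool.Agent.Helper27.CF.comp_coan ih.2.1 ih.2.2).2⟩
    | quotients V _ ih =>
      exact ⟨Pool.Agent.W875.TS.ts_mod a ha V ih.1, Pool.Agent.W875.TS.ts_cmod a V ih.2.1,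
        Pool.Agent.W875.TS.ts_imod a V⟩
    | unions V _ ih =>
      exact ⟨Pool.Agent.TH425.FF.cun_vcu V (fun n => (ih n).1) (fun n => (ih n).2.1)
          (fun n => (ih n).2.2),
        Pool.Agent.TH425.FF.cun_coan V fun n => (ih n).2.1,
        Pool.Agent.TH425.FF.cun_inv V fun n => (ih n).2.2⟩
  exact Pool.Agent.H533R2.VS.vs_plain a V key.1

end Pool.Agent.Results.MP_5df2c5_lc.NoFreeSubgroups
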